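import Mathlib
import Pool.Agent.AG35.Stmt

/-! # MP_ae599a_gt (AB27): bounded cuts

`IsLengthSpace`, `gridGraph`, `IsAsymptoticMinor`, `AsdimLE`, `IsCocycle`, `IsCob` are in
`Pool.Agent.AG35.Stmt`; `IsQuasiTree` is in `Pool.Agent.AG35.QStmt`.
-/

namespace AB27

/-- a bounded cut at scale `ρ`: an integral `1`-cocycle of the Rips complex at scale `ρ`, with
values in `{-1, 0, 1}` and with bounded support -/
structure IsBddCut {X : Type*} [MetricSpace X] (ρ : ℝ) (z : X → X → ℤ) : Prop where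
  cocycle : AG35.IsCocycle ρ z
  unit : ∀ a b : X, dist a b ≤ ρ → |z a b| ≤ 1
  supp : ∃ (o : X) (D : ℝ), ∀ a b : X, dist a b ≤ ρ → D < dist o a → z a b = 0

/-- the bounded cuts at scale `ρ` span a subgroup of finite rank in the first integral cohomology of
the Rips complex: for some `m`, any `m + 1` bounded cuts have a nontrivial integer combination which
is a coboundary -/
def FewBddCuts (ρ : ℝ) (X : Type*) [MetricSpace X] : Prop :=
  ∃ m : ℕ, ∀ z : Fin (m + 1) → X → X → ℤ, (∀ i, IsBddCut ρ (z i)) →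
    ∃ c : Fin (m + 1) → ℤ, c ≠ 0 ∧ AG35.IsCob ρ (fun a b => ∑ i, c i * z i a b)

end AB27
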