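import Pool.Agent.AG35.Rank
import Pool.Agent.AB27.Stmt

/-! # AB27.RankC : few bounded cuts at some scale imply that all bounded cuts at some larger scale
are trivial -/

namespace AB27

open Set AG35

variable {X : Type*} [MetricSpace X]

/-- all bounded cuts at scale `ρ` are coboundaries -/
def CutTrivial (ρ : ℝ) (X : Type*) [MetricSpace X] : Prop :=
  ∀ z : X → X → ℤ, IsBddCut ρ z → IsCob ρ z

theorem IsBddCut.mono {ρ ρ' : ℝ} (h : ρ ≤ ρ') {z : X → X → ℤ} (hz : IsBddCut ρ' z) :
    IsBddCut ρ z := by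
  refine ⟨hz.cocycle.mono h, fun a b hab => hz.unit a b (hab.trans h), ?_⟩
  obtain ⟨o, D, hD⟩ := hz.supp
  exact ⟨o, D, fun a b hab => hD a b (hab.trans h)⟩

theorem rank_aux (hX : IsLengthSpace X) (m : ℕ) : ∀ ρ : ℝ, 0 < ρ →
    (∀ z : Fin (m + 1) → X → X → ℤ, (∀ i, IsBddCut ρ (z i)) →
      ∃ c : Fin (m + 1) → ℤ, c ≠ 0 ∧ IsCob ρ (fun a b => ∑ i, c i * z i a b)) →
    ∃ ρ' : ℝ, ρ ≤ ρ' ∧ CutTrivial ρ' X := by
  induction m with
  | zero =>
    intro ρ hρ h
    refine ⟨ρ, le_rfl, ?_⟩
    intro z hz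
    by_contra hn
    obtain ⟨o, p, hp⟩ := rank_exists_closed hX hρ hz.cocycle hn
    obtain ⟨c, hc, f, hf⟩ := h (fun _ => z) (fun _ => hz)
    have h1 := wsum_cob hf p
    rw [wsum_linear] at h1
    simp only [sub_self, mul_eq_zero, Nat.reduceAdd, Finset.univ_unique,
      Finset.sum_singleton] at h1
    rcases h1 with h1 | h1
    · apply hc
      funext i
      have hi : i = default := by
        apply Fin.ext
        have h5 := i.2
        have h6 : ((default : Fin (0 + 1)) : ℕ) < 0 + 1 := (default : Fin (0 + 1)).2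
        omega
      rw [hi]
      exact h1
    · exact hp h1
  | succ m ih =>
    intro ρ hρ h
    by_cases ht : CutTrivial ρ X
    · exact ⟨ρ, le_rfl, ht⟩
    · unfold CutTrivial at ht
      push Not at ht
      obtain ⟨z, hz, hn⟩ := ht
      obtain ⟨o, p, hp⟩ := rank_exists_closed hX hρ hz.cocycle hn
      obtain ⟨r, hr⟩ := rank_list_bound o p.support
      have hρρ : ρ ≤ max ρ r := le_max_left _ _
      obtain ⟨ρ', h1, h2⟩ := ih (max ρ r) (lt_of_lt_of_le hρ hρρ) (by
        intro w hw
        obtain ⟨c, hc, f, hf⟩ := h (Fin.cons z w) (by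
          intro i
          refine Fin.cases ?_ ?_ i
          · exact hz
          · intro j
            exact (hw j).mono hρρ)
        have h1 := wsum_cob hf p
        rw [wsum_linear, sub_self, Fin.sum_univ_succ] at h1
        simp only [Fin.cons_zero, Fin.cons_succ] at h1
        have h2 : ∀ i, wsum (w i) p = 0 := by
          intro i
          rw [wsum_tele hρρ (hw i).cocycle o p (fun u hu => (hr u hu).trans (le_max_right _ _))]
          ring
        have h3 : c 0 = 0 := by
          simp only [h2, mul_zero, Finset.sum_const_zero, add_zero, mul_eq_zero] at h1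
          exact h1.resolve_right hp
        refine ⟨fun i => c i.succ, ?_, f, ?_⟩
        · intro h0
          apply hc
          funext i
          refine Fin.cases ?_ ?_ i
          · exact h3
          · intro j
            exact congrFun h0 j
        · refine cob_of_cob hX hρ hρρ (rank_sum_cocycle _ _ _ fun i => (hw i).cocycle) ?_
          intro a b hab
          have h4 : ∑ i, c i * (Fin.cons z w : Fin (m + 1 + 1) → X → X → ℤ) i a b = f b - f a :=
            hf a b hab
          rw [Fin.sum_univ_succ, h3] at h4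
          simpa using h4)
      exact ⟨ρ', hρρ.trans h1, h2⟩

theorem cutTrivial_of_few (hX : IsLengthSpace X) {ρ : ℝ} (hρ : 0 < ρ)
    (h : FewBddCuts ρ X) (R : ℝ) : ∃ ρ' : ℝ, R ≤ ρ' ∧ CutTrivial ρ' X := by
  obtain ⟨m, hm⟩ := h
  obtain ⟨ρ', h1, h2⟩ := rank_aux hX m ρ hρ hm
  refine ⟨max ρ' R, le_max_right _ _, ?_⟩
  intro z hz
  obtain ⟨f, hf⟩ := h2 z (hz.mono (le_max_left _ _))
  exact ⟨f, cob_of_cob hX (lt_of_lt_of_le hρ h1) (le_max_left _ _) hz.cocycle hf⟩

end AB27
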