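import Pool.Agent.AG35.Coc
import Pool.Agent.AB27.RankC

/-! # AB27.CocC : the class of a transition edge is a bounded cut

Adapted from `Pool.Agent.AG35.Coc` (helper35): the cocycle used there is a bounded cut.
-/

namespace AB27

open Set AG35

variable {X : Type*} [MetricSpace X]

open Classical in
/-- the indicator of the transition edges in the class of `e` -/
noncomputable def cutInd (ρ : ℝ) (m : X) (s : ℕ) (e : X × X) (a b : X) : ℤ :=
  if IsTE ρ m s (a, b) ∧ ECls ρ m s e (a, b) then 1 else 0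

theorem cutInd_in {ρ : ℝ} {m : X} {s : ℕ} {e : X × X} {a b : X} (h : dist m b ≤ s) :
    cutInd ρ m s e a b = 0 := by
  unfold cutInd
  rw [if_neg]
  rintro ⟨⟨_, _, h3⟩, _⟩
  exact absurd h (not_le.mpr h3)

theorem cutInd_out {ρ : ℝ} {m : X} {s : ℕ} {e : X × X} {a b : X} (h : (s : ℝ) < dist m a) :
    cutInd ρ m s e a b = 0 := by
  unfold cutInd
  rw [if_neg]
  rintro ⟨⟨_, h2, _⟩, _⟩
  exact absurd h2 (not_le.mpr h)

theorem cutInd_congr {ρ : ℝ} {m : X} {s : ℕ} {e : X × X} {a b a' b' : X}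
    (h : EStep ρ m s (a, b) (a', b')) (h' : EStep ρ m s (a', b') (a, b)) :
    cutInd ρ m s e a b = cutInd ρ m s e a' b' := by
  unfold cutInd
  by_cases hk : ECls ρ m s e (a, b)
  · rw [if_pos ⟨h.1, hk⟩, if_pos ⟨h.2.1, Relation.ReflTransGen.tail hk h⟩]
  · rw [if_neg (fun hh => hk hh.2), if_neg (fun hh => hk (Relation.ReflTransGen.tail hh.2 h'))]

theorem cutInd_fst {ρ : ℝ} {m : X} {s : ℕ} {e : X × X} {a b b' : X}
    (ha : dist m a ≤ s) (hb : (s : ℝ) < dist m b) (hb' : (s : ℝ) < dist m b')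
    (h1 : dist a b ≤ ρ) (h2 : dist a b' ≤ ρ) (h3 : dist b b' ≤ ρ) :
    cutInd ρ m s e a b = cutInd ρ m s e a b' :=
  cutInd_congr ⟨⟨h1, ha, hb⟩, ⟨h2, ha, hb'⟩, Or.inl ⟨rfl, h3⟩⟩
    ⟨⟨h2, ha, hb'⟩, ⟨h1, ha, hb⟩, Or.inl ⟨rfl, by rw [dist_comm]; exact h3⟩⟩

theorem cutInd_snd {ρ : ℝ} {m : X} {s : ℕ} {e : X × X} {a a' b : X}
    (ha : dist m a ≤ s) (ha' : dist m a' ≤ s) (hb : (s : ℝ) < dist m b)
    (h1 : dist a b ≤ ρ) (h2 : dist a' b ≤ ρ) (h3 : dist a a' ≤ ρ) :
    cutInd ρ m s e a b = cutInd ρ m s e a' b :=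
  cutInd_congr ⟨⟨h1, ha, hb⟩, ⟨h2, ha', hb⟩, Or.inr ⟨rfl, h3⟩⟩
    ⟨⟨h2, ha', hb⟩, ⟨h1, ha, hb⟩, Or.inr ⟨rfl, by rw [dist_comm]; exact h3⟩⟩

theorem cutInd_cocycle (ρ : ℝ) (m : X) (s : ℕ) (e : X × X) :
    IsCocycle ρ (fun a b => cutInd ρ m s e a b - cutInd ρ m s e b a) := by
  intro a b c hab hbc hac
  have hba : dist b a ≤ ρ := by rw [dist_comm]; exact hab
  have hcb : dist c b ≤ ρ := by rw [dist_comm]; exact hbc
  have hca : dist c a ≤ ρ := by rw [dist_comm]; exact hac
  show cutInd ρ m s e a c - cutInd ρ m s e c a =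
    (cutInd ρ m s e a b - cutInd ρ m s e b a) + (cutInd ρ m s e b c - cutInd ρ m s e c b)
  rcases le_or_gt (dist m a) (s : ℝ) with ha | ha <;>
    rcases le_or_gt (dist m b) (s : ℝ) with hb | hb <;>
    rcases le_or_gt (dist m c) (s : ℝ) with hc | hc
  · rw [cutInd_in (a := a) hc, cutInd_in (a := c) ha, cutInd_in (a := a) hb, cutInd_in (a := b) ha,
      cutInd_in (a := b) hc, cutInd_in (a := c) hb]
    norm_num
  · rw [cutInd_out (b := a) hc, cutInd_in (a := a) hb, cutInd_in (a := b) ha,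
      cutInd_out (b := b) hc, cutInd_snd ha hb hc hac hbc hab]
    ring
  · rw [cutInd_in (a := a) hc, cutInd_in (a := c) ha, cutInd_out (b := a) hb,
      cutInd_out (b := c) hb, cutInd_snd ha hc hb hab hcb hac]
    ring
  · rw [cutInd_out (b := a) hc, cutInd_out (b := a) hb, cutInd_out (b := c) hb,
      cutInd_out (b := b) hc, cutInd_fst ha hc hb hac hab hcb]
    ring
  · rw [cutInd_out (b := c) ha, cutInd_out (b := b) ha, cutInd_in (a := b) hc,
      cutInd_in (a := c) hb, cutInd_snd hc hb ha hca hba hcb]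
    ring
  · rw [cutInd_out (b := c) ha, cutInd_out (b := a) hc, cutInd_out (b := b) ha,
      cutInd_out (b := b) hc, cutInd_fst hb ha hc hba hbc hac]
    ring
  · rw [cutInd_out (b := c) ha, cutInd_out (b := b) ha, cutInd_out (b := a) hb,
      cutInd_out (b := c) hb, cutInd_fst hc ha hb hca hcb hab]
    ring
  · rw [cutInd_out (b := c) ha, cutInd_out (b := a) hc, cutInd_out (b := b) ha,
      cutInd_out (b := a) hb, cutInd_out (b := c) hb, cutInd_out (b := b) hc]
    norm_num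

/-- the class of a transition edge is a bounded cut -/
theorem cutInd_cut {ρ : ℝ} (hρ : 0 ≤ ρ) (m : X) (s : ℕ) (e : X × X) :
    IsBddCut ρ (fun a b => cutInd ρ m s e a b - cutInd ρ m s e b a) := by
  refine ⟨cutInd_cocycle ρ m s e, ?_, m, s + ρ, ?_⟩
  · intro a b _
    show |cutInd ρ m s e a b - cutInd ρ m s e b a| ≤ 1
    unfold cutInd
    split_ifs <;> norm_num
  · intro a b hab ha
    show cutInd ρ m s e a b - cutInd ρ m s e b a = 0
    have h1 := dist_triangle m b a
    rw [dist_comm b a] at h1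
    rw [cutInd_out (by linarith), cutInd_out (by linarith)]
    norm_num

/-- the jump of a potential along a radial chain -/
theorem cut_jump {ρ : ℝ} (hρ : 2 ≤ ρ) {m q : X} {s : ℕ} {e : X × X} {d : ℕ → X}
    (hd : Radial m q d) (hq : (s : ℝ) + 1 ≤ dist m q) {f : X → ℤ}
    (hf : ∀ a b : X, dist a b ≤ ρ → cutInd ρ m s e a b - cutInd ρ m s e b a = f b - f a) :
    f q - f m = cutInd ρ m s e (d s) (d (s + 1)) := by
  have hstep : ∀ i : ℕ, (i : ℝ) + 1 ≤ dist m q → dist (d i) (d (i + 1)) ≤ ρ := by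
    intro i hi
    have h1 := hd.step i (i + 1) (Nat.le_succ i) (by push_cast; exact hi)
    push_cast at h1
    linarith
  have h0 : d 0 = m := by
    have h1 := hd.rad 0 (by push_cast; exact dist_nonneg)
    push_cast at h1
    exact (dist_eq_zero.mp h1).symm
  -- inside the ball
  have hin : ∀ i : ℕ, i ≤ s → f (d i) = f m := by
    intro i
    induction i with
    | zero => intro _; rw [h0]
    | succ i ih =>
      intro hi
      have hir : (i : ℝ) + 1 ≤ s := by exact_mod_cast hi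
      have h1 := hf (d i) (d (i + 1)) (hstep i (by linarith))
      have h2 := hd.rad i (by linarith)
      have h3 := hd.rad (i + 1) (by push_cast; linarith)
      push_cast at h3
      rw [cutInd_in (by rw [h3]; exact hir), cutInd_in (by rw [h2]; linarith)] at h1
      have h4 := ih (by omega)
      omega
  -- outside the ball
  have hout : ∀ i : ℕ, s + 1 ≤ i → (i : ℝ) ≤ dist m q → f (d i) = f (d (s + 1)) := by
    intro i hi
    induction i, hi using Nat.le_induction with
    | base => intro _; rfl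
    | succ i hi ih =>
      intro hiq
      push_cast at hiq
      have hir : (s : ℝ) + 1 ≤ i := by exact_mod_cast hi
      have h1 := hf (d i) (d (i + 1)) (hstep i hiq)
      have h2 := hd.rad i (by linarith)
      have h3 := hd.rad (i + 1) (by push_cast; linarith)
      push_cast at h3
      rw [cutInd_out (by rw [h2]; linarith), cutInd_out (by rw [h3]; linarith)] at h1
      have h4 := ih (by linarith)
      omega
  -- the last step
  have hn0 : (0 : ℝ) ≤ dist m q := dist_nonneg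
  have hfl := Nat.floor_le hn0
  have hlt := Nat.lt_floor_add_one (dist m q)
  have hsn : s + 1 ≤ ⌊dist m q⌋₊ := by
    apply Nat.le_floor
    push_cast
    exact hq
  have hsnr : (s : ℝ) + 1 ≤ (⌊dist m q⌋₊ : ℝ) := by exact_mod_cast hsn
  have hlast : f q = f (d ⌊dist m q⌋₊) := by
    have h1 := hd.tail ⌊dist m q⌋₊ hfl
    have h2 := hf (d ⌊dist m q⌋₊) q (by linarith)
    have h3 := hd.rad ⌊dist m q⌋₊ hfl
    rw [cutInd_out (by rw [h3]; linarith), cutInd_out (by linarith)] at h2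
    omega
  have hmid := hf (d s) (d (s + 1)) (hstep s hq)
  have h5 := hd.rad (s + 1) (by push_cast; exact hq)
  push_cast at h5
  have h6 : cutInd ρ m s e (d (s + 1)) (d s) = 0 := cutInd_out (by rw [h5]; linarith)
  have h7 := hin s le_rfl
  have h8 := hout ⌊dist m q⌋₊ hsn hfl
  rw [h6] at hmid
  omega

theorem same_class {ρ : ℝ} (hH : CutTrivial ρ X) (hρ : 2 ≤ ρ) {m p p' : X} {s : ℕ}
    {c c' : ℕ → X} (hc : Radial m p c) (hc' : Radial m p' c') (hp : (s : ℝ) + 1 ≤ dist m p)
    (hp' : (s : ℝ) + 1 ≤ dist m p') (hL : Link {z | (s : ℝ) < dist m z} ρ p p') :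
    ECls ρ m s (c s, c (s + 1)) (c' s, c' (s + 1)) := by
  obtain ⟨f, hf⟩ := hH _ (cutInd_cut (by linarith) m s (c s, c (s + 1)))
  have hlink : ∀ q : X, Link {z | (s : ℝ) < dist m z} ρ p q → f p = f q := by
    intro q hq
    induction hq with
    | refl => rfl
    | @tail a b _ hab ih =>
      have ha : (s : ℝ) < dist m a := hab.1
      have hb : (s : ℝ) < dist m b := hab.2.1
      have h1 := hf a b hab.2.2
      simp only [cutInd_out ha, cutInd_out hb] at h1
      omega
  have hpp : f p = f p' := hlink p' hL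
  have h1 := cut_jump hρ hc hp hf
  have h2 := cut_jump hρ hc' hp' hf
  have h3 : cutInd ρ m s (c s, c (s + 1)) (c s) (c (s + 1)) = 1 := by
    unfold cutInd
    rw [if_pos ⟨isTE_radial hρ hc hp, Relation.ReflTransGen.refl⟩]
  have h4 : cutInd ρ m s (c s, c (s + 1)) (c' s) (c' (s + 1)) = 1 := by omega
  by_contra hcon
  unfold cutInd at h4
  rw [if_neg (fun hh => hcon hh.2)] at h4
  exact absurd h4 (by norm_num)

/-- a radial chain to `p'` crosses the row of a radial chain to `p` -/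
theorem mem_row {ρ : ℝ} (hH : CutTrivial ρ X) (hρ : 2 ≤ ρ) {m p p' : X} {s : ℕ}
    {c c' : ℕ → X} (hc : Radial m p c) (hc' : Radial m p' c') (hp : (s : ℝ) + 1 ≤ dist m p)
    (hp' : (s : ℝ) + 1 ≤ dist m p') (hL : Link {z | (s : ℝ) < dist m z} ρ p p') :
    c' s ∈ Row ρ m s (c s, c (s + 1)) :=
  ⟨_, same_class hH hρ hc hc' hp hp' hL, isTE_radial hρ hc' hp', Or.inl rfl⟩

end AB27
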